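import Mathlib
import Pool.Agent.V110.ES.Gen

set_option autoImplicit false

namespace Pool.Agent.Results.MP_15dca6_an.ConnectedEssentialSpectrum

/-- The essential spectrum of a bounded operator `T`: the spectrum of the image of `T` in the
Calkin algebra (bounded operators modulo compact operators). A number `z` lies outside it exactly
when `T - z` is invertible modulo compact operators, that is, when some bounded `S` makes both
`S (T - z) - 1` and `(T - z) S - 1` compact. -/
def essentialSpectrum {X : Type*} [NormedAddCommGroup X] [NormedSpace ℂ X] (T : X →L[ℂ] X) :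
    Set ℂ :=
  {z | ¬ ∃ S : X →L[ℂ] X,
    IsCompactOperator (S ∘L (T - z • ContinuousLinearMap.id ℂ X) - ContinuousLinearMap.id ℂ X) ∧
    IsCompactOperator ((T - z • ContinuousLinearMap.id ℂ X) ∘L S - ContinuousLinearMap.id ℂ X)}

/-- **If every closed invariant subspace of `T` other than `{0}` and the whole space has finite
codimension, then the essential spectrum of `T` is connected** (and nonempty). -/
theorem result {X : Type*} [NormedAddCommGroup X] [NormedSpace ℂ X] [CompleteSpace X]
    (hX : ¬ FiniteDimensional ℂ X) (T : X →L[ℂ] X)
    (hT : ∀ M : Submodule ℂ X, IsClosed (M : Set X) → (∀ x ∈ M, T x ∈ M) → M ≠ ⊥ → M ≠ ⊤ →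
      FiniteDimensional ℂ (X ⧸ M)) :
    IsConnected (essentialSpectrum T) := by
  have h : essentialSpectrum T = V110.ES.essSpec T := rfl
  rw [h, V110.ES.essSpec_eq hT hX]
  exact V110.ES.bb_conn hT hX

end Pool.Agent.Results.MP_15dca6_an.ConnectedEssentialSpectrum
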